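import Pool.Agent.W8.ST.Stm

set_option autoImplicit false

open MeasureTheory intervalIntegral

namespace Pool.Agent.W800.ST.Pic

open Pool.Agent.W8.ST

theorem Pic_proof : Pool.Agent.W8.ST.Pic := by
  intro f w τ hf hw hτ hpos hode h1 h2
  have hwd : Differentiable ℝ w := hw.differentiable (by norm_num)
  have hw1 : ContDiff ℝ 1 (deriv w) := by
    have : ContDiff ℝ (1 + 1) w := by
      have e : (1 : WithTop ℕ∞) + 1 = 2 := by norm_num
      rw [e]; exact hw
    exact (contDiff_succ_iff_deriv.1 this).2.2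
  have hwdd : Differentiable ℝ (deriv w) := hw1.differentiable (by norm_num)
  have hτd : Differentiable ℝ τ := hτ.differentiable (by norm_num)
  have cτ' : Continuous (deriv τ) := hτ.continuous_deriv (by norm_num)
  have cw' : Continuous (deriv w) := hw1.continuous
  have cw : Continuous w := hwd.continuous
  have cτ : Continuous τ := hτd.continuous
  have hI : Set.uIcc (-1 : ℝ) 1 = Set.Icc (-1 : ℝ) 1 := Set.uIcc_of_le (by norm_num)
  set g : ℝ → ℝ := fun t => 2 * τ t * deriv τ t * (deriv w t / w t) + τ t ^ 2 * f t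
    - τ t ^ 2 * (deriv w t / w t) ^ 2 with hg
  have cq : ContinuousOn (fun t => deriv w t / w t) (Set.Icc (-1 : ℝ) 1) :=
    cw'.continuousOn.div cw.continuousOn (fun t ht => (hpos t ht).ne')
  have cg : ContinuousOn g (Set.Icc (-1 : ℝ) 1) := by
    have a1 : ContinuousOn (fun t => 2 * τ t * deriv τ t) (Set.Icc (-1 : ℝ) 1) :=
      ((continuous_const.mul cτ).mul cτ').continuousOn
    have a2 : ContinuousOn (fun t => τ t ^ 2 * f t) (Set.Icc (-1 : ℝ) 1) :=
      ((cτ.pow 2).mul hf).continuousOn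
    have a3 : ContinuousOn (fun t => τ t ^ 2) (Set.Icc (-1 : ℝ) 1) := (cτ.pow 2).continuousOn
    exact ((a1.mul cq).add a2).sub (a3.mul (cq.pow 2))
  have hder : ∀ t ∈ Set.uIcc (-1 : ℝ) 1, HasDerivAt (fun t => τ t ^ 2 * (deriv w t / w t)) (g t) t := by
    intro t ht
    rw [hI] at ht
    have hp := hpos t ht
    have d1 : HasDerivAt τ (deriv τ t) t := (hτd t).hasDerivAt
    have d2 : HasDerivAt w (deriv w t) t := (hwd t).hasDerivAt
    have d3 : HasDerivAt (deriv w) (deriv (deriv w) t) t := (hwdd t).hasDerivAt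
    have d4 := (d1.pow 2).mul (d3.div d2 hp.ne')
    refine d4.congr_deriv ?_
    rw [hode t ht, hg]
    have := hp.ne'
    simp only [Pi.pow_apply, Pi.div_apply]
    field_simp
    ring
  have hint : IntervalIntegrable g volume (-1) 1 := by
    apply ContinuousOn.intervalIntegrable
    rw [hI]; exact cg
  have hFTC := intervalIntegral.integral_eq_sub_of_hasDerivAt hder hint
  have hsq : ContinuousOn (fun t => (deriv τ t - τ t * (deriv w t / w t)) ^ 2) (Set.Icc (-1 : ℝ) 1) :=
    (cτ'.continuousOn.sub (cτ.continuousOn.mul cq)).pow 2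
  have hint2 : IntervalIntegrable (fun t => (deriv τ t - τ t * (deriv w t / w t)) ^ 2) volume (-1) 1 := by
    apply ContinuousOn.intervalIntegrable
    rw [hI]; exact hsq
  have e : ∫ t in (-1 : ℝ)..1, ((deriv τ t) ^ 2 + f t * (τ t) ^ 2)
      = (∫ t in (-1 : ℝ)..1, (deriv τ t - τ t * (deriv w t / w t)) ^ 2) + ∫ t in (-1 : ℝ)..1, g t := by
    rw [← intervalIntegral.integral_add hint2 hint]
    refine intervalIntegral.integral_congr (fun t _ => ?_)
    simp only [hg]
    ring
  rw [e, hFTC, h1]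
  have p1 : 0 ≤ ∫ t in (-1 : ℝ)..1, (deriv τ t - τ t * (deriv w t / w t)) ^ 2 :=
    intervalIntegral.integral_nonneg (by norm_num) (fun t _ => sq_nonneg _)
  have p2 : 0 ≤ τ 1 ^ 2 * (deriv w 1 / w 1) :=
    mul_nonneg (sq_nonneg _) (div_nonneg h2 (hpos 1 (by norm_num)).le)
  have p3 : τ (-1) ^ 2 * (0 / w (-1)) = 0 := by simp
  rw [p3]
  linarith

end Pool.Agent.W800.ST.Pic
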